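import Pool.Agent.H54.LQ.Targets

/-!
# BKX: the groups of nodes are Borel
-/

set_option autoImplicit false

open Set Filter Topology

namespace Pool.Agent.H17.LQ

open Pool.Agent.H93.CP Pool.Agent.H7.LP Pool.Agent.H7.LQ Pool.Agent.H54.LQ

theorem meas_prod {Ω G : Type} [Group G] [MeasurableSpace G] [MeasurableSpace Ω]
    [MeasurableMul₂ G] (δ : ℕ → Ω → G) (h : ∀ n, Measurable (δ n)) (l : List ℕ) :
    Measurable fun w => (l.map fun i => δ i w).prod := by
  induction l with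
  | nil => simp
  | cons a l ih =>
    simp only [List.map_cons, List.prod_cons]
    exact (h a).mul ih

theorem pf_BKX (h1 : Pool.Agent.H7.LP.T_LAB) (h2 : T_MEM) (h3 : T_GEN) (h4 : T_DEL) :
    T_BKX := by
  intro G X _ _ _ _ _ _ _ _ B L M _ Y k m
  obtain ⟨δ, hδm, hδD, hδd⟩ := h4 G X L M Y
  obtain ⟨l1, -, -, -, l5, -, -⟩ := h1 G
  have hpi := L.piece k
  have hHc : IsClosed (L.H k : Set G) := Subgroup.isClosed_of_isOpen _ hpi.op
  have hMem := h2 (X × G) G (fun p => (Stb (L.H k) (lb L Y k p.1 p.2) : Set G))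
    (fun n => δ k n) (fun w => l5 _ _ hHc fun n => l1 _ _ n) (fun n => hδm k n)
    (fun n w => hδD k n w) (fun w g hg O hO => hδd k w g hg O hO)
  -- the open set
  have hVo : IsOpen {h : G | ∃ r ∈ L.R k, h * r ∈ B.N m} := by
    have : {h : G | ∃ r ∈ L.R k, h * r ∈ B.N m} =
        ⋃ r ∈ L.R k, (fun h : G => h * r) ⁻¹' (B.N m) := by
      ext h
      simp
    rw [this]
    exact isOpen_biUnion fun r _ => (B.nopn m).preimage (continuous_mul_const r)
  have hVm : MeasurableSet {p : (X × G) × G | ∃ r ∈ L.R k, p.2 * r ∈ B.N m} :=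
    measurable_snd hVo.measurableSet
  have hSS : MeasurableSet {p : (X × G) × G | p.2 ∈ Stb (L.H k) (lb L Y k p.1.1 p.1.2) ∧
      ∃ r ∈ L.R k, p.2 * r ∈ B.N m} := hMem.inter hVm
  have key : {p : (X × G) × G | p.2 ∈ KX B L Y k m p.1.1 p.1.2} =
      ⋃ l : List ℕ, (⋂ i ∈ l, (fun p : (X × G) × G => (p.1, δ k i p.1)) ⁻¹'
        {p : (X × G) × G | p.2 ∈ Stb (L.H k) (lb L Y k p.1.1 p.1.2) ∧
          ∃ r ∈ L.R k, p.2 * r ∈ B.N m}) ∩
        (fun p : (X × G) × G => (p.1, ((l.map fun i => δ k i p.1).prod)⁻¹ * p.2)) ⁻¹'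
        {p : (X × G) × G | p.2 ∈ Stb (L.H k) (lb L Y k p.1.1 p.1.2) ∧
          ∃ r ∈ L.R k, p.2 * r ∈ B.N m} := by
    ext p
    have hg := h3 G (Stb (L.H k) (lb L Y k p.1.1 p.1.2))
      {h | h ∈ Stb (L.H k) (lb L Y k p.1.1 p.1.2) ∧ ∃ r ∈ L.R k, h * r ∈ B.N m}
      (fun n => δ k n p.1) (fun s hs => hs.1)
      (by
        rintro s ⟨hs, r, hr, hsr⟩
        refine ⟨Subgroup.inv_mem _ hs, s * r⁻¹ * s⁻¹,
          hpi.nor s (mem_Stb.1 hs).1 _ (Subgroup.inv_mem _ hr), ?_⟩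
        have := B.ninv m _ hsr
        have h5 : s⁻¹ * (s * r⁻¹ * s⁻¹) = (s * r)⁻¹ := by group
        rwa [h5])
      ⟨Subgroup.one_mem _, 1, Subgroup.one_mem _, by simpa using B.none m⟩
      (by
        rintro s ⟨hs, r, hr, hsr⟩
        refine ⟨(fun h : G => h * r) ⁻¹' (B.N m),
          ((B.nopn m).preimage (continuous_mul_const r)).mem_nhds hsr, ?_⟩
        intro g hg hgO
        exact ⟨hg, r, hr, hgO⟩)
      (fun n => hδD k n p.1) (fun g hg O hO => hδd k p.1 g hg O hO) p.2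
    simp only [mem_setOf_eq, mem_iUnion, mem_inter_iff, mem_iInter, mem_preimage]
    exact hg
  rw [key]
  refine MeasurableSet.iUnion fun l => MeasurableSet.inter ?_ ?_
  · refine MeasurableSet.biInter (Set.to_countable {i | i ∈ l}) fun i _ => ?_
    exact (measurable_fst.prodMk ((hδm k i).comp measurable_fst)) hSS
  · refine (measurable_fst.prodMk ?_) hSS
    exact ((meas_prod (fun i => δ k i) (fun n => hδm k n) l).comp measurable_fst).inv.mul
      measurable_snd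

end Pool.Agent.H17.LQ
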